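import Mathlib
import Pool.Agent.H48.Sgn

set_option autoImplicit false

namespace Pool.Agent.Results.MP_5217bf_nt.Proof

open Finset Filter Topology

/- f_{A,n}(-1) for A = {3m+1}: the sum of (-1)^(number of parts) over the partitions of n all of
whose parts are 1 mod 3. -/
def f (n : ℕ) : ℤ :=
  ∑ p ∈ univ.filter (fun p : n.Partition => ∀ i ∈ p.parts, i % 3 = 1), (-1) ^ p.parts.card

lemma coeff_eq (n : ℕ) : PowerSeries.coeff n (Nat.Partition.genFun H48.Sgn.chi) = (f n : ℂ) := by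
  rw [Nat.Partition.coeff_genFun, f, sum_filter]
  push_cast
  refine sum_congr rfl fun p _ => ?_
  unfold Finsupp.prod H48.Sgn.chi
  rw [prod_ite_zero]
  simp only [Multiset.toFinsupp_support, Multiset.mem_toFinset, Multiset.toFinsupp_apply]
  rw [prod_pow_eq_pow_sum, Multiset.toFinset_sum_count_eq]

lemma fourier (p : ℕ) (hp : 1 ≤ p) (σ : ℕ → ℂ) : ∃ v c : Fin p → ℂ, (∀ j, ‖v j‖ = 1) ∧
    ∀ n, σ (n % p) = ∑ j, c j * v j ^ n := by
  have hz := Complex.isPrimitiveRoot_exp p (by omega)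
  obtain ⟨z, hzd⟩ : ∃ z, z = Complex.exp (2 * Real.pi * Complex.I / p) := ⟨_, rfl⟩
  rw [← hzd] at hz
  have hdet : (Matrix.vandermonde fun j : Fin p => z ^ (j : ℕ)).det ≠ 0 :=
    Matrix.det_vandermonde_ne_zero_iff.2 fun i j h => Fin.ext (hz.pow_inj i.2 j.2 h)
  refine ⟨fun j => z ^ (j : ℕ), Matrix.vecMul (fun r : Fin p => σ r)
    (Matrix.vandermonde fun j : Fin p => z ^ (j : ℕ))⁻¹, fun j => ?_, fun n => ?_⟩
  · rw [norm_pow, hz.norm'_eq_one (by omega), one_pow]
  · have h1 := Matrix.vecMul_vecMul (fun r : Fin p => σ r)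
      (Matrix.vandermonde fun j : Fin p => z ^ (j : ℕ))⁻¹
      (Matrix.vandermonde fun j : Fin p => z ^ (j : ℕ))
    rw [Matrix.nonsing_inv_mul _ (IsUnit.mk0 _ hdet), Matrix.vecMul_one] at h1
    have h2 := congrFun h1 ⟨n % p, Nat.mod_lt _ hp⟩
    simp only at h2
    rw [← h2, Matrix.vecMul, dotProduct]
    refine sum_congr rfl fun j _ => ?_
    congr 1
    rw [Matrix.vandermonde_apply]
    conv_rhs => rw [← Nat.mod_add_div n p, pow_add, pow_mul, ← pow_mul _ _ p, mul_comm _ p,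
      pow_mul, hz.pow_eq_one]
    simp

theorem result :
    ¬ ∃ p N : ℕ, 1 ≤ p ∧ ∀ n, N ≤ n → Int.sign (f (n + p)) = Int.sign (f n) := by
  rintro ⟨p, N, hp, h⟩
  have hk : ∀ k n, N ≤ n → Int.sign (f (n + k * p)) = Int.sign (f n) := by
    intro k n hn
    induction k with
    | zero => simp
    | succ k ih => rw [add_mul, one_mul, ← add_assoc, h _ (by omega), ih]
  obtain ⟨σ, hσ⟩ : ∃ σ : ℕ → ℤ, σ = fun r => Int.sign (f (r + N * p)) := ⟨_, rfl⟩
  have hσ1 : ∀ n, N ≤ n → σ (n % p) = Int.sign (f n) := by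
    intro n hn
    have h1 := hk (n / p) (n % p + N * p) (by nlinarith [Nat.zero_le (n % p)])
    have h2 := hk N n hn
    rw [hσ]
    simp only
    rw [← h1, ← h2]
    congr 2
    have := Nat.mod_add_div' n p
    omega
  have hσ2 : ∀ r, |σ r| ≤ 1 := by
    intro r; rw [hσ]; simp only
    rcases lt_trichotomy (f (r + N * p)) 0 with h | h | h
    · rw [Int.sign_eq_neg_one_of_neg h]; simp
    · rw [h]; simp
    · rw [Int.sign_eq_one_of_pos h]; simp
  obtain ⟨v, c, hv, hc⟩ := fourier p hp (fun r => σ r)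
  obtain ⟨z, w, hz, hw, hlow⟩ := H48.Sgn.lower
  have gen := H48.Sgn.gen
  simp only [coeff_eq] at gen
  obtain ⟨C0, hC0⟩ : ∃ C0 : ℝ, C0 = ∑ n ∈ range N, 2 * |(f n : ℝ)| := ⟨_, rfl⟩
  have hC00 : 0 ≤ C0 := hC0 ▸ sum_nonneg fun _ _ => by positivity
  have main : ∀ t : ℝ, 0 < t → Real.exp (H48.Sgn.H (z * Complex.exp (-(t * w)))).re ≤
      C0 + ∑ j, ‖c j‖ * Real.exp (H48.Sgn.H (v j * Complex.exp (-(t * (1 : ℂ))))).re := by
    intro t ht
    obtain ⟨r, hr⟩ : ∃ r, r = Real.exp (-t) := ⟨_, rfl⟩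
    have hr0 : 0 < r := hr ▸ Real.exp_pos _
    have hr1 : r < 1 := hr ▸ Real.exp_lt_one_iff.2 (by linarith)
    have hx : ‖z * Complex.exp (-(t * w))‖ = r := by
      rw [norm_mul, hz, one_mul, Complex.norm_exp, hr]; simp [hw]
    have he : Complex.exp (-(t * (1 : ℂ))) = r := by rw [hr]; simp
    obtain ⟨g1, g2⟩ := gen _ (hx ▸ hr1)
    rw [← Complex.norm_exp, ← g2]
    refine (norm_tsum_le_tsum_norm g1).trans ?_
    simp only [norm_mul (_ : ℂ) (_ ^ _), norm_pow, hx, Complex.norm_intCast] at g1 ⊢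
    have s1 : HasSum (fun n => ((σ (n % p) * f n * r ^ n : ℝ) : ℂ))
        (∑ j, c j * Complex.exp (H48.Sgn.H (v j * r))) := by
      have hn : ∀ j, ‖v j * r‖ < 1 := fun j => by simp [hv, abs_of_pos hr0, hr1]
      refine H48.Sgn.hsc (hasSum_sum (s := univ) fun j _ =>
        ((gen _ (hn j)).1.of_norm.hasSum.mul_left (c j))) (fun n => ?_) ?_
      · push_cast
        rw [hc, sum_mul, sum_mul]
        exact sum_congr rfl fun j _ => by ring
      · exact sum_congr rfl fun j _ => by rw [(gen _ (hn j)).2]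
    have s2 := Complex.hasSum_re s1
    simp only [Complex.ofReal_re] at s2
    have s3 : HasSum (fun n => if n < N then 2 * |(f n : ℝ)| else 0) C0 := by
      have := hasSum_sum_of_ne_finset_zero (f := fun n => if n < N then 2 * |(f n : ℝ)| else 0)
        (s := range N) (L := SummationFilter.unconditional ℕ) (fun n hn => if_neg (by simpa using hn))
      rwa [sum_congr rfl (fun n hn => if_pos (mem_range.1 hn)), ← hC0] at this
    refine le_trans (hasSum_le (fun n => ?_) g1.hasSum (s3.add s2)) ?_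
    · have hrn : 0 ≤ r ^ n := by positivity
      split_ifs with hn
      · have a1 : r ^ n ≤ 1 := pow_le_one₀ hr0.le hr1.le
        have a2 : |(σ (n % p) : ℝ)| ≤ 1 := by exact_mod_cast hσ2 _
        have a3 : |(σ (n % p) : ℝ) * f n * r ^ n| ≤ |(f n : ℝ)| := by
          rw [abs_mul, abs_mul, abs_of_nonneg hrn]
          calc _ ≤ 1 * |(f n : ℝ)| * 1 := by gcongr
            _ = _ := by ring
        have a4 : |(f n : ℝ)| * r ^ n ≤ |(f n : ℝ)| := mul_le_of_le_one_right (abs_nonneg _) a1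
        linarith [(abs_le.1 a3).1]
      · rw [hσ1 n (by omega), zero_add]
        have : ((Int.sign (f n) : ℤ) : ℝ) * f n = |(f n : ℝ)| := by
          exact_mod_cast Int.sign_mul_self_eq_abs (f n)
        rw [this]
    · rw [he]
      refine add_le_add le_rfl ((Complex.re_le_norm _).trans ((norm_sum_le _ _).trans ?_))
      exact sum_le_sum fun j _ => by rw [norm_mul, Complex.norm_exp]
  have l1 := ((Complex.continuous_re.tendsto _).comp (H48.Sgn.lim z w hz hw)).eventually_const_lt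
    (u := 0.557) (by linarith)
  have l2 : ∀ᶠ t : ℝ in 𝓝[>] 0, ∀ j, (3 * (t : ℂ) *
      H48.Sgn.H (v j * Complex.exp (-(t * (1 : ℂ))))).re < 0.553 :=
    eventually_all.2 fun j => ((Complex.continuous_re.tendsto _).comp
      (H48.Sgn.lim (v j) 1 (hv j) rfl)).eventually_lt_const
      (by linarith [H48.Sgn.upper (v j) (hv j)])
  obtain ⟨C, hC⟩ : ∃ C : ℝ, C = C0 + ∑ j, ‖c j‖ := ⟨_, rfl⟩
  have hCn : 0 ≤ C := hC ▸ add_nonneg hC00 (sum_nonneg fun _ _ => norm_nonneg _)
  have l3 : ∀ᶠ t : ℝ in 𝓝[>] 0, t < 0.001 / (C + 1) :=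
    nhdsWithin_le_nhds (Iio_mem_nhds (by positivity))
  obtain ⟨t, t1, t2, t3, (t4 : 0 < t)⟩ := (l1.and (l2.and (l3.and self_mem_nhdsWithin))).exists
  have re3 : ∀ y : ℂ, (3 * (t : ℂ) * y).re = 3 * t * y.re := fun y => by
    simp [Complex.mul_re]
  simp only [Function.comp, re3] at t1 t2
  have m := main t t4
  obtain ⟨E, hE⟩ : ∃ E, E = Real.exp (0.553 / (3 * t)) := ⟨_, rfl⟩
  have hE1 : 1 ≤ E := hE ▸ Real.one_le_exp (by positivity)
  have b1 : C0 + ∑ j, ‖c j‖ * Real.exp (H48.Sgn.H (v j * Complex.exp (-(t * (1 : ℂ))))).re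
      ≤ C * E := by
    rw [hC, add_mul, sum_mul]
    refine add_le_add (le_mul_of_one_le_right hC00 hE1) (sum_le_sum fun j _ => ?_)
    refine mul_le_mul_of_nonneg_left (hE ▸ Real.exp_le_exp.2 ?_) (norm_nonneg _)
    rw [le_div_iff₀ (by positivity)]
    linarith [t2 j]
  have b2 : Real.exp (0.004 / (3 * t)) * E ≤
      Real.exp (H48.Sgn.H (z * Complex.exp (-(t * w)))).re := by
    rw [hE, ← Real.exp_add, Real.exp_le_exp, ← add_div, div_le_iff₀ (by positivity)]
    linarith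
  have b3 : C + 1 ≤ 0.004 / (3 * t) := by
    rw [lt_div_iff₀ (by positivity)] at t3
    rw [le_div_iff₀ (by positivity)]
    linarith
  have b4 := Real.add_one_le_exp (0.004 / (3 * t))
  nlinarith

end Pool.Agent.Results.MP_5217bf_nt.Proof
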